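import Mathlib

/-!
# Trees: `7 (Γ_s - γ_s) ≤ 4 n - 8` for `n ≥ 2`

For a minimal signed dominating function `f` and a signed dominating function `g` of a tree we bound
`∑ (7 (f - g) - 4)`. The induction cuts an edge `rc` at a root `r` and carries, for the component of
the root, a short list of linear bounds in the two neighbour sums at the root.
-/

set_option autoImplicit false

namespace Pool.Agent.Results.MP_1fa864_co.TreesHold

open Finset Classical

section arith

/-- the bounds carried by the induction -/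
structure Claims (x xx : ℤ) (q cf : Prop) (val F H : ℤ) : Prop where
  pp : x = 1 → xx = 1 → val ≤ -4 + F - H ∧ val ≤ -4 + 6 * F - 10 * H ∧ val ≤ -4 - F - 3 * H ∧
    (¬ q → val ≤ -4 - 4 * F)
  pm : x = 1 → xx = -1 → val ≤ 10 + 6 * F - 14 * H ∧ val ≤ 10 - 8 * F ∧
    (¬ q → val ≤ 10 - 8 * H) ∧ (¬ q → cf → val ≤ -2 - 8 * F ∧ val ≤ -2 - 8 * H)
  mp : x = -1 → xx = 1 → val ≤ -18 - 2 * H
  mm : x = -1 → xx = -1 → val ≤ -4 - 8 * F ∧ val ≤ -4 + 6 * F - 14 * H

/-- what a child contributes -/
structure Child (x xx y yy : ℤ) (q q2 : Prop) (val : ℤ) : Prop where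
  pp : x = 1 → xx = 1 → val ≤ y - yy ∧ val ≤ 6 * y - 10 * yy ∧ val ≤ - y - 3 * yy ∧
    (¬ q → val ≤ - 4 * y)
  pm : x = 1 → xx = -1 → val ≤ 6 * y - 14 * yy ∧ val ≤ - 8 * y ∧
    (¬ q → val ≤ - 8 * yy) ∧ (¬ q → q2 → val ≤ -12 - 8 * y ∧ val ≤ -12 - 8 * yy)
  mp : x = -1 → xx = 1 → val ≤ - 2 * yy
  mm : x = -1 → xx = -1 → val ≤ - 8 * y ∧ val ≤ 6 * y - 14 * yy

theorem child_of {x xx y yy : ℤ} {q q2 cf2 : Prop} {val2 F2 H2 : ℤ}
    (hx : x = 1 ∨ x = -1) (hxx : xx = 1 ∨ xx = -1) (hy : y = 1 ∨ y = -1)
    (hyy : yy = 1 ∨ yy = -1) (hpar : ∃ k, F2 - H2 = 2 * k)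
    (hs : 1 ≤ y + F2 + x) (hs' : 1 ≤ yy + H2 + xx)
    (hq2 : q2 ↔ y + F2 + x ≤ 2)
    (hcond : y = 1 → q2 ∨ cf2 ∨ q)
    (c2 : Claims y yy q2 cf2 val2 F2 H2) : Child x xx y yy q q2 val2 := by
  obtain ⟨k, hk⟩ := hpar
  rcases hy with rfl | rfl
  · rcases hyy with rfl | rfl
    · obtain ⟨b1, b2, b3, b4⟩ := c2.pp rfl rfl
      by_cases h : q2
      · have h' := hq2.1 h
        constructor <;> rintro rfl rfl <;> (try simp only [h, true_imp_iff]) <;> omega
      · have h' : ¬ (1 + F2 + x ≤ 2) := fun h'' => h (hq2.2 h'')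
        have b4' := b4 h
        constructor <;> rintro rfl rfl <;> (try simp only [h, false_imp_iff, imp_true_iff, and_true]) <;> omega
    · obtain ⟨b1, b2, b3, b4⟩ := c2.pm rfl rfl
      by_cases h : q2
      · have h' := hq2.1 h
        constructor <;> rintro rfl rfl <;> (try simp only [h, true_imp_iff]) <;> omega
      · have h' : ¬ (1 + F2 + x ≤ 2) := fun h'' => h (hq2.2 h'')
        have b3' := b3 h
        by_cases h2 : cf2
        · obtain ⟨b4', b5'⟩ := b4 h h2
          constructor <;> rintro rfl rfl <;> (try simp only [h, false_imp_iff, imp_true_iff, and_true]) <;> omega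
        · have hq : q := by
            rcases hcond rfl with h3 | h3 | h3
            · exact absurd h3 h
            · exact absurd h3 h2
            · exact h3
          constructor <;> rintro rfl rfl <;> (try simp only [h, hq, not_true, false_imp_iff, imp_true_iff, and_true]) <;> omega
  · rcases hyy with rfl | rfl
    · have b1 := c2.mp rfl rfl
      by_cases h : q2
      · have h' := hq2.1 h
        constructor <;> rintro rfl rfl <;> (try simp only [h, true_imp_iff]) <;> omega
      · have h' : ¬ (-1 + F2 + x ≤ 2) := fun h'' => h (hq2.2 h'')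
        constructor <;> rintro rfl rfl <;> (try simp only [h, false_imp_iff, imp_true_iff, and_true]) <;> omega
    · obtain ⟨b1, b2⟩ := c2.mm rfl rfl
      by_cases h : q2
      · have h' := hq2.1 h
        constructor <;> rintro rfl rfl <;> (try simp only [h, true_imp_iff]) <;> omega
      · have h' : ¬ (-1 + F2 + x ≤ 2) := fun h'' => h (hq2.2 h'')
        constructor <;> rintro rfl rfl <;> (try simp only [h, false_imp_iff, imp_true_iff, and_true]) <;> omega

theorem step {x xx y yy : ℤ} {q q2 cf cf1 : Prop} {val1 F1 H1 val2 : ℤ}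
    (hcf : cf → cf1 ∨ q2)
    (c1 : Claims x xx q cf1 val1 F1 H1) (c2 : Child x xx y yy q q2 val2) :
    Claims x xx q cf (val1 + val2) (F1 + y) (H1 + yy) := by
  constructor
  · intro h1 h2
    obtain ⟨a1, a2, a3, a4⟩ := c1.pp h1 h2
    obtain ⟨b1, b2, b3, b4⟩ := c2.pp h1 h2
    refine ⟨by omega, by omega, by omega, fun hq => ?_⟩
    have a4' := a4 hq
    have b4' := b4 hq
    omega
  · intro h1 h2
    obtain ⟨a1, a2, a3, a4⟩ := c1.pm h1 h2
    obtain ⟨b1, b2, b3, b4⟩ := c2.pm h1 h2
    refine ⟨by omega, by omega, fun hq => ?_, fun hq hc => ?_⟩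
    · have a3' := a3 hq
      have b3' := b3 hq
      omega
    · have a3' := a3 hq
      have b3' := b3 hq
      rcases hcf hc with h | h
      · obtain ⟨a5, a6⟩ := a4 hq h
        omega
      · obtain ⟨b5, b6⟩ := b4 hq h
        omega
  · intro h1 h2
    have a1 := c1.mp h1 h2
    have b1 := c2.mp h1 h2
    omega
  · intro h1 h2
    obtain ⟨a1, a2⟩ := c1.mm h1 h2
    obtain ⟨b1, b2⟩ := c2.mm h1 h2
    omega

end arith

variable {V : Type} [Fintype V]

/-- the set of neighbours of `v` -/
noncomputable def nbr (G : SimpleGraph V) (v : V) : Finset V :=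
  Finset.univ.filter (fun w => G.Adj v w)

theorem mem_nbr {G : SimpleGraph V} {v w : V} : w ∈ nbr G v ↔ G.Adj v w := by
  simp [nbr]

/-- `f(N[v])`: the sum of `f` over the closed neighbourhood of `v` -/
noncomputable def closedSum (G : SimpleGraph V) (f : V → ℤ) (v : V) : ℤ :=
  f v + ∑ w ∈ nbr G v, f w

/-- signed dominating function -/
def IsSDF (G : SimpleGraph V) (f : V → ℤ) : Prop :=
  (∀ v, f v = 1 ∨ f v = -1) ∧ ∀ v, 1 ≤ closedSum G f v

/-- minimal signed dominating function: no other signed dominating function lies below `f` -/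
def IsMinimalSDF (G : SimpleGraph V) (f : V → ℤ) : Prop :=
  IsSDF G f ∧ ∀ g, IsSDF G g → (∀ v, g v ≤ f v) → g = f

/-- signed domination number -/
noncomputable def signedDom (G : SimpleGraph V) : ℤ :=
  sInf {w | ∃ f : V → ℤ, IsSDF G f ∧ w = ∑ v, f v}

/-- upper signed domination number -/
noncomputable def upperSignedDom (G : SimpleGraph V) : ℤ :=
  sSup {w | ∃ f : V → ℤ, IsMinimalSDF G f ∧ w = ∑ v, f v}

/-! ### Components and cutting an edge -/

/-- vertex set of the component of `r` -/
noncomputable def K (G : SimpleGraph V) (r : V) : Finset V :=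
  Finset.univ.filter (fun x => G.Reachable r x)

theorem mem_K {G : SimpleGraph V} {r x : V} : x ∈ K G r ↔ G.Reachable r x := by
  simp [K]

/-- sum over the open neighbourhood -/
noncomputable def ns (G : SimpleGraph V) (f : V → ℤ) (v : V) : ℤ :=
  ∑ w ∈ nbr G v, f w

/-- the quantity bounded by the induction -/
noncomputable def val (G : SimpleGraph V) (f g : V → ℤ) (r : V) : ℤ :=
  ∑ v ∈ K G r, (7 * (f v - g v) - 4)

section split

variable {G : SimpleGraph V} {r c : V}

/-- the graph without the edge `rc` -/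
abbrev cut (G : SimpleGraph V) (r c : V) : SimpleGraph V := G.deleteEdges {s(r, c)}

omit [Fintype V] in
theorem cut_adj {x y : V} : (cut G r c).Adj x y ↔ G.Adj x y ∧ s(x, y) ≠ s(r, c) := by
  simp [cut, SimpleGraph.deleteEdges_adj]

omit [Fintype V] in
theorem not_reach (hG : G.IsAcyclic) (hrc : G.Adj r c) : ¬ (cut G r c).Reachable r c :=
  SimpleGraph.isBridge_iff.1 (SimpleGraph.isAcyclic_iff_forall_isBridge.1 hG hrc)

theorem K_union (hrc : G.Adj r c) : K G r = K (cut G r c) r ∪ K (cut G r c) c := by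
  ext x
  rw [mem_union, mem_K, mem_K, mem_K]
  constructor
  · intro h
    rw [SimpleGraph.reachable_iff_reflTransGen] at h
    induction h with
    | refl => exact Or.inl (SimpleGraph.Reachable.refl _)
    | @tail y z _ hyz ih =>
      by_cases he : s(y, z) = s(r, c)
      · rcases Sym2.eq_iff.1 he with ⟨-, h2⟩ | ⟨-, h2⟩
        · right; rw [h2]
        · left; rw [h2]
      · have h1 : (cut G r c).Adj y z := cut_adj.2 ⟨hyz, he⟩
        rcases ih with h | h
        · exact Or.inl (h.trans h1.reachable)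
        · exact Or.inr (h.trans h1.reachable)
  · rintro (h | h)
    · exact h.mono (SimpleGraph.deleteEdges_le _)
    · exact hrc.reachable.trans (h.mono (SimpleGraph.deleteEdges_le _))

theorem K_disj (hG : G.IsAcyclic) (hrc : G.Adj r c) :
    Disjoint (K (cut G r c) r) (K (cut G r c) c) := by
  rw [Finset.disjoint_left]
  intro x h1 h2
  rw [mem_K] at h1 h2
  exact not_reach hG hrc (h1.trans h2.symm)

theorem nbr_other {v : V} (hr : v ≠ r) (hc : v ≠ c) :
    nbr (cut G r c) v = nbr G v := by
  ext w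
  rw [mem_nbr, mem_nbr, cut_adj]
  constructor
  · exact fun h => h.1
  · intro h
    refine ⟨h, fun he => ?_⟩
    rcases Sym2.eq_iff.1 he with ⟨e1, -⟩ | ⟨e1, -⟩
    · exact hr e1
    · exact hc e1

theorem nbr_r (hrc : G.Adj r c) :
    nbr G r = insert c (nbr (cut G r c) r) := by
  ext w
  rw [Finset.mem_insert, mem_nbr, mem_nbr, cut_adj]
  constructor
  · intro h
    by_cases hw : w = c
    · exact Or.inl hw
    · refine Or.inr ⟨h, fun he => ?_⟩
      rcases Sym2.eq_iff.1 he with ⟨-, e2⟩ | ⟨e1, -⟩
      · exact hw e2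
      · exact hrc.ne e1
  · rintro (rfl | h)
    · exact hrc
    · exact h.1

theorem nbr_c (hrc : G.Adj r c) :
    nbr G c = insert r (nbr (cut G r c) c) := by
  ext w
  rw [Finset.mem_insert, mem_nbr, mem_nbr, cut_adj]
  constructor
  · intro h
    by_cases hw : w = r
    · exact Or.inl hw
    · refine Or.inr ⟨h, fun he => ?_⟩
      rcases Sym2.eq_iff.1 he with ⟨e1, -⟩ | ⟨-, e2⟩
      · exact hrc.ne e1.symm
      · exact hw e2
  · rintro (rfl | h)
    · exact hrc.symm
    · exact h.1

theorem ns_other (f : V → ℤ) {v : V} (hr : v ≠ r) (hc : v ≠ c) :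
    ns (cut G r c) f v = ns G f v := by
  unfold ns
  rw [nbr_other hr hc]

theorem ns_r (f : V → ℤ) (hrc : G.Adj r c) : ns G f r = ns (cut G r c) f r + f c := by
  unfold ns
  rw [nbr_r hrc, Finset.sum_insert, add_comm]
  rw [mem_nbr, cut_adj]
  exact fun h => h.2 rfl

theorem ns_c (f : V → ℤ) (hrc : G.Adj r c) : ns G f c = ns (cut G r c) f c + f r := by
  unfold ns
  rw [nbr_c hrc, Finset.sum_insert, add_comm]
  rw [mem_nbr, cut_adj]
  exact fun h => h.2 Sym2.eq_swap

theorem val_split (hG : G.IsAcyclic) (hrc : G.Adj r c) (f g : V → ℤ) :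
    val G f g r = val (cut G r c) f g r + val (cut G r c) f g c := by
  unfold val
  rw [K_union hrc, Finset.sum_union (K_disj hG hrc)]

end split

/-- hypotheses at the vertices of the component other than the root; `q` says that vertices next to
the root may rely on the root being tight -/
def Hyp (G : SimpleGraph V) (f g : V → ℤ) (r : V) (q : Prop) : Prop :=
  ∀ u ∈ K G r, u ≠ r → 1 ≤ f u + ns G f u ∧ 1 ≤ g u + ns G g u ∧
    (f u = 1 → (∃ w, (w = u ∨ G.Adj u w) ∧ w ≠ r ∧ f w + ns G f w ≤ 2) ∨ (q ∧ G.Adj u r))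

/-- some neighbour of the root is tight -/
def tightNbr (G : SimpleGraph V) (f : V → ℤ) (r : V) : Prop :=
  ∃ u, G.Adj r u ∧ f u + ns G f u ≤ 2

theorem ns_parity {f g : V → ℤ} (hf : ∀ v, f v = 1 ∨ f v = -1) (hg : ∀ v, g v = 1 ∨ g v = -1)
    (G : SimpleGraph V) (v : V) : ∃ k, ns G f v - ns G g v = 2 * k := by
  refine ⟨∑ w ∈ nbr G v, (f w - g w) / 2, ?_⟩
  unfold ns
  rw [← Finset.sum_sub_distrib, Finset.mul_sum]
  refine Finset.sum_congr rfl fun w _ => ?_
  rcases hf w with h | h <;> rcases hg w with h' | h' <;> rw [h, h'] <;> norm_num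

theorem all_claims {f g : V → ℤ} (hf : ∀ v, f v = 1 ∨ f v = -1)
    (hg : ∀ v, g v = 1 ∨ g v = -1) : ∀ G : SimpleGraph V, G.IsAcyclic → ∀ (r : V) (q : Prop),
    Hyp G f g r q →
    Claims (f r) (g r) q (tightNbr G f r) (val G f g r) (ns G f r) (ns G g r) := by
  intro G
  induction G using WellFoundedLT.induction with
  | _ G ih =>
  intro hG r q hyp
  by_cases hr : ∀ y, ¬ G.Adj r y
  · -- isolated root
    have hK : K G r = {r} := by
      ext x
      rw [mem_K, Finset.mem_singleton]
      constructor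
      · intro h
        rw [SimpleGraph.reachable_iff_reflTransGen] at h
        induction h with
        | refl => rfl
        | @tail y z _ hyz ih =>
          rw [ih] at hyz
          exact absurd hyz (hr z)
      · rintro rfl
        exact SimpleGraph.Reachable.refl _
    have hn : nbr G r = ∅ := by
      ext w
      rw [mem_nbr]
      simp [hr w]
    have e1 : ns G f r = 0 := by unfold ns; rw [hn, Finset.sum_empty]
    have e2 : ns G g r = 0 := by unfold ns; rw [hn, Finset.sum_empty]
    have e3 : val G f g r = 7 * (f r - g r) - 4 := by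
      unfold val
      rw [hK, Finset.sum_singleton]
    have e4 : ¬ tightNbr G f r := fun ⟨u, hu, _⟩ => hr u hu
    rw [e1, e2, e3]
    constructor <;> intro h1 h2 <;> rw [h1, h2]
    · refine ⟨by norm_num, by norm_num, by norm_num, fun _ => by norm_num⟩
    · refine ⟨by norm_num, by norm_num, fun _ => by norm_num, fun _ h => absurd h e4⟩
    · norm_num
    · refine ⟨by norm_num, by norm_num⟩
  push Not at hr
  obtain ⟨c, hrc⟩ := hr
  have hlt : cut G r c < G := by
    refine lt_of_le_of_ne (SimpleGraph.deleteEdges_le _) ?_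
    intro h
    have h1 : (cut G r c).Adj r c := by rw [h]; exact hrc
    exact (cut_adj.1 h1).2 rfl
  have hac : (cut G r c).IsAcyclic := hG.anti (SimpleGraph.deleteEdges_le _)
  have hd := K_disj hG hrc
  have hrK : r ∈ K (cut G r c) r := mem_K.2 (SimpleGraph.Reachable.refl _)
  have hcK : c ∈ K (cut G r c) c := mem_K.2 (SimpleGraph.Reachable.refl _)
  have hKu := K_union hrc
  have hcr : c ≠ r := hrc.ne'
  have hsub : ∀ {x y}, (cut G r c).Adj x y → G.Adj x y := fun h => (cut_adj.1 h).1
  have hcutof : ∀ {x y}, G.Adj x y → x ≠ r → x ≠ c → (cut G r c).Adj x y := by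
    intro x y hxy h1 h2
    refine cut_adj.2 ⟨hxy, fun he => ?_⟩
    rcases Sym2.eq_iff.1 he with ⟨e1, -⟩ | ⟨e1, -⟩
    · exact h1 e1
    · exact h2 e1
  -- tightness of `c` in `G`
  set q2 : Prop := f c + ns (cut G r c) f c + f r ≤ 2 with hq2
  have hns : ∀ w, w ≠ r → w ≠ c → f w + ns (cut G r c) f w = f w + ns G f w := by
    intro w h1 h2
    rw [ns_other f h1 h2]
  have hyp1 : Hyp (cut G r c) f g r q := by
    intro u hu hur
    have huc : u ≠ c := by
      rintro rfl
      exact Finset.disjoint_left.1 hd hu hcK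
    obtain ⟨h1, h2, h3⟩ := hyp u (by rw [hKu]; exact mem_union_left _ hu) hur
    rw [ns_other f hur huc, ns_other g hur huc]
    refine ⟨h1, h2, fun hfu => ?_⟩
    rcases h3 hfu with ⟨w, hw1, hw2, hw3⟩ | ⟨hq, hadj⟩
    · left
      have hwc : w ≠ c := by
        rintro rfl
        rcases hw1 with h | h
        · exact huc h.symm
        · have := mem_K.1 hu
          exact not_reach hG hrc (this.trans (hcutof h hur huc).reachable)
      refine ⟨w, ?_, hw2, ?_⟩
      · rcases hw1 with h | h
        · exact Or.inl h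
        · exact Or.inr (hcutof h hur huc)
      · rw [ns_other f hw2 hwc]
        exact hw3
    · right
      exact ⟨hq, hcutof hadj hur huc⟩
  have hyp2 : Hyp (cut G r c) f g c q2 := by
    intro u hu huc
    have hur : u ≠ r := by
      rintro rfl
      exact Finset.disjoint_left.1 hd hrK hu
    obtain ⟨h1, h2, h3⟩ := hyp u (by rw [hKu]; exact mem_union_right _ hu) hur
    rw [ns_other f hur huc, ns_other g hur huc]
    refine ⟨h1, h2, fun hfu => ?_⟩
    rcases h3 hfu with ⟨w, hw1, hw2, hw3⟩ | ⟨hq, hadj⟩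
    · by_cases hwc : w = c
      · right
        subst hwc
        rcases hw1 with h | h
        · exact absurd h.symm huc
        · refine ⟨?_, hcutof h hur huc⟩
          rw [ns_c f hrc] at hw3
          rw [hq2]
          linarith
      · left
        refine ⟨w, ?_, hwc, ?_⟩
        · rcases hw1 with h | h
          · exact Or.inl h
          · exact Or.inr (hcutof h hur huc)
        · rw [ns_other f hw2 hwc]
          exact hw3
    · exfalso
      have := mem_K.1 hu
      exact not_reach hG hrc (this.trans (hcutof hadj hur huc).reachable).symm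
  have C1 := ih (cut G r c) hlt hac r q hyp1
  have C2 := ih (cut G r c) hlt hac c q2 hyp2
  -- facts at `c`
  obtain ⟨hc1, hc2, hc3⟩ := hyp c (by rw [hKu]; exact mem_union_right _ hcK) hcr
  rw [ns_c f hrc] at hc1
  rw [ns_c g hrc] at hc2
  have hch : Child (f r) (g r) (f c) (g c) q q2 (val (cut G r c) f g c) := by
    refine child_of (hf r) (hg r) (hf c) (hg c) (ns_parity hf hg (cut G r c) c)
      (by linarith) (by linarith) Iff.rfl ?_ C2
    intro hfc
    rcases hc3 hfc with ⟨w, hw1, hw2, hw3⟩ | ⟨hq, -⟩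
    · by_cases hwc : w = c
      · left
        rw [hwc, ns_c f hrc] at hw3
        rw [hq2]
        linarith
      · right; left
        have hadj : G.Adj c w := by
          rcases hw1 with h | h
          · exact absurd h hwc
          · exact h
        refine ⟨w, ?_, ?_⟩
        · refine cut_adj.2 ⟨hadj, fun he => ?_⟩
          rcases Sym2.eq_iff.1 he with ⟨e1, -⟩ | ⟨-, e2⟩
          · exact hcr e1
          · exact hw2 e2
        · rw [ns_other f hw2 hwc]
          exact hw3
    · exact Or.inr (Or.inr hq)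
  rw [val_split hG hrc, ns_r f hrc, ns_r g hrc]
  refine step ?_ C1 hch
  rintro ⟨u, hu, hut⟩
  by_cases huc : u = c
  · right
    rw [huc, ns_c f hrc] at hut
    rw [hq2]
    linarith
  · left
    refine ⟨u, ?_, ?_⟩
    · refine cut_adj.2 ⟨hu, fun he => ?_⟩
      rcases Sym2.eq_iff.1 he with ⟨-, e2⟩ | ⟨e1, -⟩
      · exact huc e2
      · exact hcr e1.symm
    · rw [ns_other f hu.ne' huc]
      exact hut

/-! ### Minimal signed dominating functions -/

theorem tight_of_minimal {G : SimpleGraph V} {f : V → ℤ} (hf : IsMinimalSDF G f) (v : V)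
    (hv : f v = 1) : ∃ w, (w = v ∨ G.Adj v w) ∧ f w + ns G f w ≤ 2 := by
  by_contra hno
  push Not at hno
  set g : V → ℤ := Function.update f v (-1) with hg
  have hgv : g v = -1 := by rw [hg, Function.update_self]
  have hgo : ∀ w, w ≠ v → g w = f w := fun w hw => by rw [hg, Function.update_of_ne hw]
  have hgle : ∀ w, g w ≤ f w := by
    intro w
    by_cases hw : w = v
    · rw [hw, hgv, hv]; norm_num
    · rw [hgo w hw]
  have hgge : ∀ w, f w ≤ g w + 2 := by
    intro w
    by_cases hw : w = v
    · rw [hw, hgv, hv]; norm_num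
    · rw [hgo w hw]; norm_num
  have hSDF : IsSDF G g := by
    refine ⟨fun w => ?_, fun w => ?_⟩
    · by_cases hw : w = v
      · rw [hw, hgv]; right; rfl
      · rw [hgo w hw]; exact hf.1.1 w
    · unfold closedSum
      by_cases hwv : w = v ∨ G.Adj v w
      · have h3 := hno w hwv
        unfold ns at h3
        -- the sum drops by exactly two
        rcases hwv with h | h
        · have hs : ∑ x ∈ nbr G w, g x = ∑ x ∈ nbr G w, f x := by
            refine Finset.sum_congr rfl fun x hx => hgo x ?_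
            rintro rfl
            rw [mem_nbr, h] at hx
            exact G.irrefl hx
          rw [hs, h, hgv]
          rw [h, hv] at h3
          linarith
        · have hvw : v ∈ nbr G w := by
            rw [mem_nbr]; exact h.symm
          have hs1 := Finset.add_sum_erase (nbr G w) g hvw
          have hs2 := Finset.add_sum_erase (nbr G w) f hvw
          have hs3 : ∑ x ∈ (nbr G w).erase v, g x =
              ∑ x ∈ (nbr G w).erase v, f x := by
            refine Finset.sum_congr rfl fun x hx => hgo x ?_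
            exact (Finset.mem_erase.1 hx).1
          rw [hgv] at hs1
          rw [hv] at hs2
          rw [hgo w h.ne']
          linarith
      · push Not at hwv
        have hs : ∑ x ∈ nbr G w, g x = ∑ x ∈ nbr G w, f x := by
          refine Finset.sum_congr rfl fun x hx => hgo x ?_
          rintro rfl
          rw [mem_nbr] at hx
          exact hwv.2 hx.symm
        rw [hs, hgo w hwv.1]
        exact hf.1.2 w
  have := hf.2 g hSDF hgle
  have h1 : g v = f v := by rw [this]
  rw [hgv, hv] at h1
  norm_num at h1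

theorem final_bound {T : SimpleGraph V} (hT : T.IsTree) {f g : V → ℤ} (hf : IsMinimalSDF T f)
    (hg : IsSDF T g) : 7 * (∑ v, f v - ∑ v, g v) ≤ 4 * (Fintype.card V : ℤ) ∧
      (2 ≤ Fintype.card V → 7 * (∑ v, f v - ∑ v, g v) ≤ 4 * (Fintype.card V : ℤ) - 8) := by
  have hval : ∀ r, val T f g r = 7 * (∑ v, f v - ∑ v, g v) - 4 * (Fintype.card V : ℤ) := by
    intro r
    have hK : K T r = Finset.univ := by
      ext x
      rw [mem_K]
      simp [hT.1.preconnected r x]
    unfold val
    rw [hK, Finset.sum_sub_distrib, ← Finset.mul_sum, Finset.sum_sub_distrib, Finset.sum_const,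
      nsmul_eq_mul, Finset.card_univ]
    ring
  have hclaims : ∀ r, Claims (f r) (g r) (f r + ns T f r ≤ 2) (tightNbr T f r) (val T f g r)
      (ns T f r) (ns T g r) := by
    intro r
    refine all_claims hf.1.1 hg.1 T hT.2 r _ ?_
    intro u _ hur
    refine ⟨hf.1.2 u, hg.2 u, fun hfu => ?_⟩
    obtain ⟨w, hw1, hw2⟩ := tight_of_minimal hf u hfu
    by_cases hwr : w = r
    · right
      rw [hwr] at hw1 hw2
      rcases hw1 with h | h
      · exact absurd h.symm hur
      · exact ⟨hw2, h⟩
    · exact Or.inl ⟨w, hw1, hwr, hw2⟩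
  have hbig : 2 ≤ Fintype.card V →
      7 * (∑ v, f v - ∑ v, g v) ≤ 4 * (Fintype.card V : ℤ) - 8 := by
    intro hcard
    have : Nontrivial V := Fintype.one_lt_card_iff_nontrivial.1 hcard
    obtain ⟨r, hr⟩ := hT.exists_vert_degree_one_of_nontrivial
    have hr' : (nbr T r).card = 1 := by
      have : nbr T r = T.neighborFinset r := by
        ext w
        rw [mem_nbr, SimpleGraph.mem_neighborFinset]
      rw [this, SimpleGraph.card_neighborFinset_eq_degree]
      exact hr
    obtain ⟨c, hc⟩ := Finset.card_eq_one.1 hr'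
    have n1 : ns T f r = f c := by unfold ns; rw [hc, Finset.sum_singleton]
    have n2 : ns T g r = g c := by unfold ns; rw [hc, Finset.sum_singleton]
    have s1 : 1 ≤ f r + f c := by
      have := hf.1.2 r
      unfold closedSum at this
      rwa [hc, Finset.sum_singleton] at this
    have s2 : 1 ≤ g r + g c := by
      have := hg.2 r
      unfold closedSum at this
      rwa [hc, Finset.sum_singleton] at this
    have e1 : f r = 1 ∧ f c = 1 := by
      rcases hf.1.1 r with h | h <;> rcases hf.1.1 c with h' | h' <;> rw [h, h'] at s1 <;>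
        first
          | exact ⟨h, h'⟩
          | (exfalso; norm_num at s1)
    have e2 : g r = 1 ∧ g c = 1 := by
      rcases hg.1 r with h | h <;> rcases hg.1 c with h' | h' <;> rw [h, h'] at s2 <;>
        first
          | exact ⟨h, h'⟩
          | (exfalso; norm_num at s2)
    have h1 := (hclaims r).pp e1.1 e2.1
    rw [n1, n2, e1.2, e2.2, hval] at h1
    linarith [h1.2.1]
  refine ⟨?_, hbig⟩
  rcases Nat.lt_or_ge (Fintype.card V) 2 with h | h
  · -- one vertex
    have hne : Nonempty V := hT.1.nonempty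
    have h1 : Fintype.card V = 1 := by
      have := Fintype.card_pos (α := V)
      omega
    have hsub : Subsingleton V := Fintype.card_le_one_iff_subsingleton.1 h1.le
    obtain ⟨v⟩ := hne
    have hnb : nbr T v = ∅ := by
      ext w
      rw [mem_nbr]
      simp only [Finset.notMem_empty, iff_false]
      intro hadj
      exact hadj.ne (Subsingleton.elim _ _)
    have hu : (Finset.univ : Finset V) = {v} := by
      ext w
      simp [Subsingleton.elim w v]
    have s1 : 1 ≤ f v := by
      have := hf.1.2 v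
      unfold closedSum at this
      rwa [hnb, Finset.sum_empty, add_zero] at this
    have s2 : 1 ≤ g v := by
      have := hg.2 v
      unfold closedSum at this
      rwa [hnb, Finset.sum_empty, add_zero] at this
    have e1 : f v = 1 := by
      rcases hf.1.1 v with h | h
      · exact h
      · rw [h] at s1; norm_num at s1
    have e2 : g v = 1 := by
      rcases hg.1 v with h | h
      · exact h
      · rw [h] at s2; norm_num at s2
    rw [hu, Finset.sum_singleton, Finset.sum_singleton, e1, e2, h1]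
    norm_num
  · linarith [hbig h]

/-- the all-one function is signed dominating -/
theorem one_SDF (G : SimpleGraph V) : IsSDF G (fun _ => 1) := by
  refine ⟨fun _ => Or.inl rfl, fun v => ?_⟩
  unfold closedSum
  rw [Finset.sum_const, nsmul_eq_mul, mul_one]
  have : (0 : ℤ) ≤ ((nbr G v).card : ℤ) := Int.natCast_nonneg _
  linarith

theorem weight_ge {G : SimpleGraph V} {f : V → ℤ} (hf : IsSDF G f) :
    -(Fintype.card V : ℤ) ≤ ∑ v, f v := by
  have : ∑ _v : V, (-1 : ℤ) ≤ ∑ v, f v := Finset.sum_le_sum (fun v _ => by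
    rcases hf.1 v with h | h <;> rw [h]
    norm_num)
  simpa using this

theorem weight_le {G : SimpleGraph V} {f : V → ℤ} (hf : IsSDF G f) :
    ∑ v, f v ≤ (Fintype.card V : ℤ) := by
  have : ∑ v, f v ≤ ∑ _v : V, (1 : ℤ) := Finset.sum_le_sum (fun v _ => by
    rcases hf.1 v with h | h <;> rw [h]
    norm_num)
  simpa using this

/-- For every finite tree `T` on `n` vertices, `(Γ_s(T) - γ_s(T)) / n ≤ 4 / 7`; moreover
`7 (Γ_s(T) - γ_s(T)) ≤ 4 n - 8` if `n ≥ 2`. -/
theorem result : ∀ (V : Type) [Fintype V] (T : SimpleGraph V), T.IsTree →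
    ((upperSignedDom T - signedDom T : ℤ) : ℚ) / (Fintype.card V : ℚ) ≤ 4 / 7 ∧
    (2 ≤ Fintype.card V →
      7 * (upperSignedDom T - signedDom T) ≤ 4 * (Fintype.card V : ℤ) - 8) := by
  intro V _ T hT
  have hne1 : {w | ∃ f : V → ℤ, IsSDF T f ∧ w = ∑ v, f v}.Nonempty :=
    ⟨_, _, one_SDF T, rfl⟩
  have hbd1 : BddBelow {w | ∃ f : V → ℤ, IsSDF T f ∧ w = ∑ v, f v} := by
    refine ⟨-(Fintype.card V : ℤ), ?_⟩
    rintro w ⟨f, hf, rfl⟩
    exact weight_ge hf
  obtain ⟨g, hg, hgw⟩ := Int.csInf_mem hne1 hbd1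
  have hgmin : IsMinimalSDF T g := by
    refine ⟨hg, fun g' hg' hle => ?_⟩
    have h1 : sInf {w | ∃ f : V → ℤ, IsSDF T f ∧ w = ∑ v, f v} ≤ ∑ v, g' v :=
      csInf_le hbd1 ⟨g', hg', rfl⟩
    rw [hgw] at h1
    have h2 : ∑ v, g' v = ∑ v, g v := le_antisymm (Finset.sum_le_sum (fun v _ => hle v)) h1
    have h3 := (Finset.sum_eq_sum_iff_of_le (fun v _ => hle v)).1 h2
    exact funext fun v => h3 v (Finset.mem_univ v)
  have hne2 : {w | ∃ f : V → ℤ, IsMinimalSDF T f ∧ w = ∑ v, f v}.Nonempty :=
    ⟨_, _, hgmin, rfl⟩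
  have hbd2 : BddAbove {w | ∃ f : V → ℤ, IsMinimalSDF T f ∧ w = ∑ v, f v} := by
    refine ⟨(Fintype.card V : ℤ), ?_⟩
    rintro w ⟨f, hf, rfl⟩
    exact weight_le hf.1
  obtain ⟨f, hf, hfw⟩ := Int.csSup_mem hne2 hbd2
  have hb := final_bound hT hf hg
  have e1 : upperSignedDom T = ∑ v, f v := hfw
  have e2 : signedDom T = ∑ v, g v := hgw
  rw [e1, e2]
  refine ⟨?_, hb.2⟩
  have hne : Nonempty V := hT.1.nonempty
  have hpos : (0 : ℚ) < (Fintype.card V : ℚ) := by exact_mod_cast Fintype.card_pos
  rw [div_le_div_iff₀ hpos (by norm_num)]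
  have h3 : ((7 * (∑ v, f v - ∑ v, g v) : ℤ) : ℚ) ≤ ((4 * (Fintype.card V : ℤ) : ℤ) : ℚ) := by
    exact_mod_cast hb.1
  push_cast at h3 ⊢
  linarith

end Pool.Agent.Results.MP_1fa864_co.TreesHold
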